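import Pool.Agent.Helper60.GUM.St

/-!
# Module VAN of project GUM (MP_0bd1d1_al, owner helper60)

Vanishing of weight functions.
-/

set_option autoImplicit false

namespace Pool.Agent.Helper63.GUM

open Module _root_.OG _root_.GUM

variable {k F X : Type*} [Field k] [Field F] [Algebra k F] [AddCommGroup X] [Module F X]
  {σ : F ≃ₐ[k] F} {B : HForm σ X} {R K : Type*} [Field K] [CommRing R] [Algebra R K]

theorem hVan [FiniteDimensional F X] (hH : StHyp B) (hT : StTyp B) (χ : AddChar F R)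
    (hW : StWts R K B χ) : StVan R K B χ where
  v3 := by
    intro Y p p' h y f j hY hf hs h1 h2 h3
    funext W
    by_cases hWS : W ∈ Sk B Y j
    · by_cases hp : p ∈ W
      · obtain ⟨i, rfl, A, hA, rfl⟩ := hT.t1 Y p p' j W h hWS hp
        exact h1 A hA
      · by_cases hperp : ∀ w ∈ W, B.f w p = 0
        · obtain ⟨v, A, hA, e⟩ := hT.t2 Y p p' j W hY h hWS hp hperp
          obtain ⟨c, hc⟩ := hH.adm v.1
          rw [e c hc]
          exact hW.tr Y p p' h y f hf v c hc A (h2 A hA)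
        · push Not at hperp
          obtain ⟨w, hw, hpw⟩ := hperp
          obtain ⟨i, rfl, v, c, hc, A, hA, e⟩ := hT.t3 Y p p' j W h hWS w hw hpw
          rw [e]
          exact hW.tr Y p p' h y f hf v c hc _ (h3 A hA)
    · exact hs W hWS
  v2 := by
    intro Y p p' h y f j hY hf hs h2
    funext W
    by_cases hWS : W ∈ {A | A ∈ Sk B Y j ∧ p ∉ A ∧ ∀ a ∈ A, B.f a p = 0}
    · obtain ⟨v, A, hA, e⟩ := hT.t2 Y p p' j W hY h hWS.1 hWS.2.1 hWS.2.2
      obtain ⟨c, hc⟩ := hH.adm v.1
      rw [e c hc]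
      exact hW.tr Y p p' h y f hf v c hc A (h2 A hA)
    · exact hs W hWS

end Pool.Agent.Helper63.GUM
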